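import Pool.Agent.H987.Z.StC

/-! Green functions of real symmetric operators on `ℓ²(ι)` (task Z-C1 of helper987). -/

set_option autoImplicit false

open scoped BigOperators InnerProductSpace Topology
open Filter MeasureTheory

namespace Pool.Agent.H304.Z987

open Pool.Agent.Y662.TR
open Pool.Agent.TH369.AN (Rz rz_eq rz_uniq rz_norm)
open Pool.Agent.H987.Z

variable {ι : Type}

theorem tsum_dv' (u : ι → ℂ) (a : ι) : ∑' x, u x * dv a x = u a := by
  rw [tsum_eq_single a]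
  · rw [dv_self, mul_one]
  · intro x hx
    rw [dv_ne hx, mul_zero]

theorem mul_summable' (u v : LL ι) : Summable fun x => u x * v x := by
  refine Summable.of_norm_bounded (g := fun x => ‖u x‖ ^ 2 + ‖v x‖ ^ 2)
    ((ll_summable u).add (ll_summable v)) fun x => ?_
  rw [norm_mul]
  nlinarith [sq_nonneg (‖u x‖ + ‖v x‖), sq_nonneg (‖u x‖ - ‖v x‖), sq_nonneg (‖u x‖),
    sq_nonneg ‖v x‖]

theorem HV_rs (T : LL ι →L[ℂ] LL ι) (hT : Rs T) (V : ι → ℝ) : Rs (HV T V) := by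
  refine ⟨hT.sa.add (Mw_sa 1 V), fun u v => ?_⟩
  have h1 : ∀ x, HV T V u x * v x = T u x * v x + Mw 1 V u x * v x := by
    intro x
    have : HV T V u x = T u x + Mw 1 V u x := rfl
    rw [this]; ring
  have h2 : ∀ x, u x * HV T V v x = u x * T v x + Mw 1 V u x * v x := by
    intro x
    have : HV T V v x = T v x + Mw 1 V v x := rfl
    rw [this, Mw_apply, Mw_apply]; ring
  rw [tsum_congr h1, tsum_congr h2,
    Summable.tsum_add (mul_summable' (T u) v) (mul_summable' (Mw 1 V u) v),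
    Summable.tsum_add (mul_summable' u (T v)) (mul_summable' (Mw 1 V u) v), hT.bil u v]

theorem HV_norm (T : LL ι →L[ℂ] LL ι) (V : ι → ℝ) : ‖HV T V‖ ≤ ‖T‖ + 1 := by
  refine (norm_add_le _ _).trans ?_
  have := Mw_norm 1 V
  rw [abs_one] at this
  linarith

theorem Gr_symm (T : LL ι →L[ℂ] LL ι) (hT : Rs T) (z : ℂ) (x y : ι) (hz : z.im ≠ 0) :
    Gr T z x y = Gr T z y x := by
  obtain ⟨a, ha⟩ : ∃ a, a = Rz T z (dv x) := ⟨_, rfl⟩
  obtain ⟨b, hb⟩ : ∃ b, b = Rz T z (dv y) := ⟨_, rfl⟩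
  have h1 : T a - z • a = dv x := by rw [ha]; exact rz_eq _ hT.sa z hz _
  have h2 : T b - z • b = dv y := by rw [hb]; exact rz_eq _ hT.sa z hz _
  have h3 : ∀ w, T a w = dv x w + z * a w := by
    intro w
    rw [← h1, sub_coord, smul_coord]
    ring
  have h4 : ∀ w, T b w = dv y w + z * b w := by
    intro w
    rw [← h2, sub_coord, smul_coord]
    ring
  have h5 := hT.bil a b
  have e1 : ∑' w, T a w * b w = b x + z * ∑' w, a w * b w := by
    have : ∀ w, T a w * b w = b w * dv x w + z * (a w * b w) := by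
      intro w
      rw [h3]
      ring
    rw [tsum_congr this, Summable.tsum_add (mul_summable' b (dv x))
      ((mul_summable' a b).mul_left z), tsum_dv' (fun w => b w), tsum_mul_left]
  have e2 : ∑' w, a w * T b w = a y + z * ∑' w, a w * b w := by
    have : ∀ w, a w * T b w = a w * dv y w + z * (a w * b w) := by
      intro w
      rw [h4]
      ring
    rw [tsum_congr this, Summable.tsum_add (mul_summable' a (dv y))
      ((mul_summable' a b).mul_left z), tsum_dv' (fun w => a w), tsum_mul_left]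
  rw [e1, e2] at h5
  have h6 : b x = a y := add_right_cancel h5
  unfold Gr
  rw [← ha, ← hb]
  exact h6

theorem Gr_im (T : LL ι →L[ℂ] LL ι) (hT : Rs T) (z : ℂ) (x : ι) (hz : z.im ≠ 0) :
    (Gr T z x x).im = z.im * ‖Rz T z (dv x)‖ ^ 2 := by
  have h : (inner ℂ (dv x) (Rz T z (dv x))).im = z.im * ‖Rz T z (dv x)‖ ^ 2 :=
    Pool.Agent.H12R2.And.im_inner hT.sa hz (dv x)
  rw [inner_dv] at h
  exact h

theorem Gr_im_lower (T : LL ι →L[ℂ] LL ι) (hT : Rs T) (z : ℂ) (x : ι) (h : ℝ) (hz : 0 < z.im)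
    (hh : ‖T‖ ≤ h) : z.im / (h + ‖z‖) ^ 2 ≤ (Gr T z x x).im := by
  rw [Gr_im T hT z x hz.ne']
  have h0 : 0 ≤ h := (norm_nonneg _).trans hh
  have hzn : 0 < ‖z‖ := hz.trans_le (Complex.im_le_norm z)
  have h1 := rz_eq _ hT.sa z hz.ne' (dv x)
  have h2 : 1 ≤ (h + ‖z‖) * ‖Rz T z (dv x)‖ := by
    rw [← norm_dv x]
    conv_lhs => rw [← h1]
    refine (norm_sub_le _ _).trans ?_
    rw [add_mul, norm_smul]
    gcongr
    refine (T.le_opNorm _).trans ?_
    gcongr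
  have h3 : 0 < h + ‖z‖ := by positivity
  rw [div_eq_mul_one_div]
  have h4 : 1 / (h + ‖z‖) ^ 2 ≤ ‖Rz T z (dv x)‖ ^ 2 := by
    rw [div_le_iff₀ (by positivity)]
    calc (1 : ℝ) = 1 ^ 2 := by norm_num
      _ ≤ ((h + ‖z‖) * ‖Rz T z (dv x)‖) ^ 2 := by gcongr
      _ = _ := by ring
  gcongr

theorem Gr_le (T : LL ι →L[ℂ] LL ι) (hT : Rs T) (z : ℂ) (x y : ι) (hz : 0 < z.im) :
    ‖Gr T z x y‖ ≤ 1 / z.im := by
  unfold Gr
  refine (ll_coord _ x).trans ?_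
  have h := rz_norm _ hT.sa z hz.ne' (dv y)
  rwa [norm_dv, abs_of_pos hz] at h

theorem rz_sub' (A : LL ι →L[ℂ] LL ι) (hA : IsSelfAdjoint A)
    (A' : LL ι →L[ℂ] LL ι) (hA' : IsSelfAdjoint A') (z : ℂ) (hz : z.im ≠ 0)
    (u : LL ι) : Rz A z u - Rz A' z u = Rz A z (A' (Rz A' z u) - A (Rz A' z u)) := by
  apply rz_uniq A hA z hz
  have h1 := rz_eq A hA z hz u
  have h2 := rz_eq A' hA' z hz u
  rw [map_sub, smul_sub]
  have h4 : A' (Rz A' z u) = u + z • Rz A' z u := sub_eq_iff_eq_add.1 h2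
  rw [h4]
  have h5 : A (Rz A z u) = u + z • Rz A z u := sub_eq_iff_eq_add.1 h1
  rw [h5]
  abel

theorem rz_sub_z (A : LL ι →L[ℂ] LL ι) (hA : IsSelfAdjoint A) (z z' : ℂ) (hz : z.im ≠ 0)
    (hz' : z'.im ≠ 0) (u : LL ι) :
    Rz A z u - Rz A z' u = Rz A z ((z - z') • Rz A z' u) := by
  apply rz_uniq A hA z hz
  have h1 := rz_eq A hA z hz u
  have h2 := rz_eq A hA z' hz' u
  rw [map_sub, smul_sub]
  have h4 : A (Rz A z' u) = u + z' • Rz A z' u := sub_eq_iff_eq_add.1 h2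
  rw [h4]
  have h5 : A (Rz A z u) = u + z • Rz A z u := sub_eq_iff_eq_add.1 h1
  rw [h5, sub_smul]
  abel

theorem Gr_sub_le (T : LL ι →L[ℂ] LL ι) (hT : Rs T) (T' : LL ι →L[ℂ] LL ι) (z : ℂ) (x y : ι)
    (hT' : Rs T') (hz : 0 < z.im) : ‖Gr T z x y - Gr T' z x y‖ ≤ ‖T - T'‖ / z.im ^ 2 := by
  have h0 : Gr T z x y - Gr T' z x y = (Rz T z (dv y) - Rz T' z (dv y) : LL ι) x := rfl
  rw [h0]
  refine (ll_coord _ x).trans ?_
  rw [rz_sub' T hT.sa T' hT'.sa z hz.ne']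
  refine (rz_norm _ hT.sa z hz.ne' _).trans ?_
  rw [abs_of_pos hz]
  have h1 : T' (Rz T' z (dv y)) - T (Rz T' z (dv y)) = (T' - T) (Rz T' z (dv y)) := rfl
  rw [h1]
  have h2 : ‖Rz T' z (dv y)‖ ≤ 1 / z.im := by
    have h := rz_norm _ hT'.sa z hz.ne' (dv y)
    rwa [norm_dv, abs_of_pos hz] at h
  have h3 : ‖(T' - T) (Rz T' z (dv y))‖ ≤ ‖T - T'‖ * (1 / z.im) := by
    refine ((T' - T).le_opNorm _).trans ?_
    rw [norm_sub_rev]
    gcongr
  calc ‖(T' - T) (Rz T' z (dv y))‖ / z.im ≤ ‖T - T'‖ * (1 / z.im) / z.im := by gcongr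
    _ = ‖T - T'‖ / z.im ^ 2 := by field_simp

theorem Gr_sub_z_le (T : LL ι →L[ℂ] LL ι) (hT : Rs T) (z z' : ℂ) (x y : ι)
    (hz : 0 < z.im) (hz' : 0 < z'.im) :
    ‖Gr T z x y - Gr T z' x y‖ ≤ ‖z - z'‖ / (z.im * z'.im) := by
  have h0 : Gr T z x y - Gr T z' x y = (Rz T z (dv y) - Rz T z' (dv y) : LL ι) x := rfl
  rw [h0]
  refine (ll_coord _ x).trans ?_
  rw [rz_sub_z T hT.sa z z' hz.ne' hz'.ne']
  refine (rz_norm _ hT.sa z hz.ne' _).trans ?_
  rw [abs_of_pos hz, norm_smul]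
  have h2 : ‖Rz T z' (dv y)‖ ≤ 1 / z'.im := by
    have h := rz_norm _ hT.sa z' hz'.ne' (dv y)
    rwa [norm_dv, abs_of_pos hz'] at h
  calc ‖z - z'‖ * ‖Rz T z' (dv y)‖ / z.im ≤ ‖z - z'‖ * (1 / z'.im) / z.im := by gcongr
    _ = ‖z - z'‖ / (z.im * z'.im) := by field_simp

/-- strong continuity of the resolvent in the potential -/
theorem Rz_HV_tendsto (T : LL ι →L[ℂ] LL ι) (hT : Rs T) {α : Type*} {F : Filter α}
    (V : α → ι → ℝ) (V0 : ι → ℝ) (hV : ∀ x, Tendsto (fun k => V k x) F (𝓝 (V0 x)))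
    (z : ℂ) (hz : z.im ≠ 0) (u : LL ι) :
    Tendsto (fun k => Rz (HV T (V k)) z u) F (𝓝 (Rz (HV T V0) z u)) := by
  rw [tendsto_iff_norm_sub_tendsto_zero]
  have h1 := Mw_tendsto 1 V V0 hV (Rz (HV T V0) z u)
  rw [tendsto_iff_norm_sub_tendsto_zero] at h1
  have h2 := h1.div_const |z.im|
  rw [zero_div] at h2
  refine squeeze_zero (fun k => norm_nonneg _) (fun k => ?_) h2
  rw [rz_sub' _ (HV_rs T hT _).sa _ (HV_rs T hT _).sa z hz u]
  refine (rz_norm _ (HV_rs T hT _).sa z hz _).trans (le_of_eq ?_)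
  congr 1
  rw [norm_sub_rev]
  congr 1
  change (T (Rz (HV T V0) z u) + Mw 1 (V k) (Rz (HV T V0) z u)) -
    (T (Rz (HV T V0) z u) + Mw 1 V0 (Rz (HV T V0) z u)) = _
  abel

theorem Gr_cont (T : LL ι →L[ℂ] LL ι) (hT : Rs T) (z : ℂ) (x y : ι) (hz : z.im ≠ 0) :
    Continuous fun V : ι → ℝ => Gr (HV T V) z x y := by
  rw [continuous_iff_continuousAt]
  intro V0
  have h := Rz_HV_tendsto T hT (F := 𝓝 V0) (fun V : ι → ℝ => V) V0
    (fun w => (continuous_apply w).tendsto V0) z hz (dv y)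
  have h2 := ((ev x).continuous.tendsto _).comp h
  exact h2

/-- **C1.** -/
theorem green : S_green := by
  intro ι T hT
  exact ⟨fun V => ⟨HV_rs T hT V, HV_norm T V⟩, fun z x y hz => Gr_symm T hT z x y hz,
    fun z x hz => Gr_im T hT z x hz, fun z x h hz hh => Gr_im_lower T hT z x h hz hh,
    fun z x y hz => Gr_le T hT z x y hz,
    fun T' z x y hT' hz => Gr_sub_le T hT T' z x y hT' hz,
    fun z z' x y hz hz' => Gr_sub_z_le T hT z z' x y hz hz',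
    fun z x y hz => Gr_cont T hT z x y hz⟩

end Pool.Agent.H304.Z987
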